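import Mathlib
import Pool.Agent.Helper58.LT.LDefs

/-!
# Project PS2, PS-5a: the core of the cluster structure (pure inequalities)
-/

namespace Pool.Agent.Helper58.PS

open Finset Pool.Agent.Helper58.LT

/-- `ls` of a set all of whose elements have logarithm at most `L` -/
theorem ls_le_card {F : Finset ℕ} {L : ℝ} (h : ∀ q ∈ F, Real.log q ≤ L) : ls F ≤ #F * L := by
  unfold ls
  calc ∑ p ∈ F, Real.log p ≤ ∑ _p ∈ F, L := Finset.sum_le_sum h
    _ = #F * L := by rw [Finset.sum_const, nsmul_eq_mul]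

theorem card_le_ls {F : Finset ℕ} {L : ℝ} (h : ∀ q ∈ F, L ≤ Real.log q) : #F * L ≤ ls F := by
  unfold ls
  calc #F * L = ∑ _p ∈ F, L := by rw [Finset.sum_const, nsmul_eq_mul]
    _ ≤ ∑ p ∈ F, Real.log p := Finset.sum_le_sum h

theorem ls_insert {F : Finset ℕ} {a : ℕ} (h : a ∉ F) : ls (insert a F) = Real.log a + ls F := by
  unfold ls
  rw [Finset.sum_insert h]

theorem ls_mono {F F' : Finset ℕ} (h : F ⊆ F') : ls F ≤ ls F' := by
  unfold ls
  exact Finset.sum_le_sum_of_subset_of_nonneg h (fun q _ _ => Real.log_natCast_nonneg q)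

theorem core (pf : Finset ℕ) (i : ℕ) (hi : 2 ≤ i) (X LP w' ε : ℝ) (P : ℕ) (G : Finset ℕ)
    (hP : P ∈ G) (hLP : Real.log P = LP) (hG : G ⊆ pf) (h2 : ∀ q ∈ pf, 2 ≤ q)
    (hmax : ∀ q ∈ pf, q ≤ P)
    (hNS : ∀ p ∈ pf, ∀ J ⊆ pf, (∀ q ∈ J, p ≤ q) → Real.log p / 2 - w' ≤ |ls J - X / 2|)
    (hX : ls pf ≤ X) (hw : 0 < w') (hε : 0 < ε) (hε1 : ((i : ℝ) + 2) * ε ≤ 1 / 4)
    (H1 : |X - (2 * i + 1) * LP| ≤ ε * LP)
    (H2 : ∀ q ∈ G, (1 - ε) * LP ≤ Real.log q)
    (H3 : ∀ q ∈ pf, q ∉ G → Real.log q < (1 - ε / 2) * LP ∧ ∀ r ∈ G, q ≤ r)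
    (H4 : (16 * (i : ℝ) + 16) * w' < ε * LP) (hc : i + 2 ≤ #G) :
    (∀ q ∈ G, LP - 4 * w' ≤ Real.log q) ∧
    (∀ q ∈ pf, q ∉ G → Real.log q ≤ LP / 3 + (8 * i + 8) / 3 * w') ∧
    |X - (2 * i + 1) * LP| ≤ (8 * i + 6) * w' ∧ #G ≤ 2 * i + 1 ∧
    (#G = 2 * i + 1 → ls pf - ls G ≤ (16 * i + 10) * w') := by
  have hiR : (2 : ℝ) ≤ i := by exact_mod_cast hi
  have hLP0 : 0 < LP := by
    by_contra hcon
    rw [not_lt] at hcon
    have h1 : ε * LP ≤ 0 := mul_nonpos_of_nonneg_of_nonpos hε.le hcon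
    have h3 : 0 < (16 * (i : ℝ) + 16) * w' := by positivity
    linarith
  have hεs : ε ≤ 1 / 16 := by nlinarith
  obtain ⟨H1a, H1b⟩ := abs_le.mp H1
  have hiε : (i : ℝ) * ε * LP ≤ LP / 4 - 2 * (ε * LP) := by
    have := mul_le_mul_of_nonneg_right hε1 hLP0.le
    nlinarith
  have hεLP : ε * LP ≤ 1 / 16 * LP := mul_le_mul_of_nonneg_right hεs hLP0.le
  have hiw : 0 < (i : ℝ) * w' := by positivity
  have hlogle : ∀ q ∈ pf, Real.log q ≤ LP := by
    intro q hq
    rw [← hLP]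
    have h3 := h2 q hq
    apply Real.log_le_log (by exact_mod_cast (by omega : 0 < q))
    exact_mod_cast hmax q hq
  -- S1
  have S1 : ∀ F ⊆ G, #F = i → ∀ m ∈ G, (∀ q ∈ F, m ≤ q) →
      ls F ≤ X / 2 - Real.log m / 2 + w' := by
    intro F hF hFc m hm hmF
    have h3 := hNS m (hG hm) F (hF.trans hG) hmF
    rcases le_abs.mp h3 with h4 | h4
    · exfalso
      have h5 : ls F ≤ #F * LP := ls_le_card (fun q hq => hlogle q (hG (hF hq)))
      rw [hFc] at h5
      have h6 := H2 m hm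
      nlinarith
    · linarith
  -- S2
  have S2 : ∀ F ⊆ G, #F = i + 1 → ∀ m ∈ G, (∀ q ∈ F, m ≤ q) →
      X / 2 + Real.log m / 2 - w' ≤ ls F := by
    intro F hF hFc m hm hmF
    have h3 := hNS m (hG hm) F (hF.trans hG) hmF
    rcases le_abs.mp h3 with h4 | h4
    · linarith
    · exfalso
      have h5 : #F * ((1 - ε) * LP) ≤ ls F := card_le_ls (fun q hq => H2 q (hF hq))
      rw [hFc] at h5
      push_cast at h5
      have h6 := H2 m hm
      nlinarith
  -- the two smallest elements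
  have hGne : G.Nonempty := ⟨P, hP⟩
  set q₁ := G.min' hGne with hq₁
  have hq₁G : q₁ ∈ G := G.min'_mem hGne
  have hq₁le : ∀ q ∈ G, q₁ ≤ q := fun q hq => G.min'_le q hq
  have hG1 : #(G.erase q₁) = #G - 1 := Finset.card_erase_of_mem hq₁G
  have hG1ne : (G.erase q₁).Nonempty := by
    rw [← Finset.card_pos, hG1]; omega
  set q₂ := (G.erase q₁).min' hG1ne with hq₂
  have hq₂G1 : q₂ ∈ G.erase q₁ := (G.erase q₁).min'_mem hG1ne
  have hq₂G : q₂ ∈ G := Finset.mem_of_mem_erase hq₂G1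
  have hq₂ne : q₂ ≠ q₁ := Finset.ne_of_mem_erase hq₂G1
  have hq₂le : ∀ q ∈ G, q ≠ q₁ → q₂ ≤ q := fun q hq hne =>
    (G.erase q₁).min'_le q (Finset.mem_erase.mpr ⟨hne, hq⟩)
  have hG2 : #((G.erase q₁).erase q₂) = #G - 2 := by
    rw [Finset.card_erase_of_mem hq₂G1, hG1]; omega
  have hmaxG : ∀ q ∈ G, q ≤ P := fun q hq => hmax q (hG hq)
  -- P is not among them
  have hPG2 : P ∈ (G.erase q₁).erase q₂ := by
    have h3 : ∃ r ∈ (G.erase q₁).erase q₂, True := by
      have h4 : ((G.erase q₁).erase q₂).Nonempty := by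
        rw [← Finset.card_pos, hG2]; omega
      obtain ⟨r, hr⟩ := h4
      exact ⟨r, hr, trivial⟩
    obtain ⟨r, hr, -⟩ := h3
    rw [Finset.mem_erase, Finset.mem_erase] at hr
    obtain ⟨hr1, hr2, hr3⟩ := hr
    have h5 := hq₁le r hr3
    have h6 := hq₂le r hr3 hr2
    have h7 := hmaxG r hr3
    rw [Finset.mem_erase, Finset.mem_erase]
    refine ⟨?_, ?_, hP⟩
    · intro hcon; omega
    · intro hcon; omega
  have hG3 : #(((G.erase q₁).erase q₂).erase P) = #G - 3 := by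
    rw [Finset.card_erase_of_mem hPG2, hG2]; omega
  obtain ⟨E, hE, hEc⟩ := Finset.exists_subset_card_eq
    (show i - 1 ≤ #(((G.erase q₁).erase q₂).erase P) by rw [hG3]; omega)
  have hEmem : ∀ q ∈ E, q ≠ P ∧ q ≠ q₂ ∧ q ≠ q₁ ∧ q ∈ G := by
    intro q hq
    have h3 := hE hq
    simp only [Finset.mem_erase] at h3
    exact ⟨h3.1, h3.2.1, h3.2.2.1, h3.2.2.2⟩
  have hEP : P ∉ E := fun h => (hEmem P h).1 rfl
  have hE2 : q₂ ∉ E := fun h => (hEmem q₂ h).2.1 rfl
  have hE1 : q₁ ∉ insert q₂ E := by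
    intro h
    rcases Finset.mem_insert.mp h with h3 | h3
    · exact hq₂ne h3.symm
    · exact (hEmem q₁ h3).2.2.1 rfl
  rw [Finset.mem_erase, Finset.mem_erase] at hPG2
  have T1 := S1 (insert P E) (by
      intro q hq
      rcases Finset.mem_insert.mp hq with rfl | h3
      · exact hP
      · exact (hEmem q h3).2.2.2) (by
      rw [Finset.card_insert_of_notMem hEP, hEc]; omega) q₂ hq₂G (by
      intro q hq
      rcases Finset.mem_insert.mp hq with rfl | h3
      · exact hq₂le _ hP hPG2.2.1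
      · exact hq₂le q (hEmem q h3).2.2.2 (hEmem q h3).2.2.1)
  have T2 := S2 (insert q₁ (insert q₂ E)) (by
      intro q hq
      rcases Finset.mem_insert.mp hq with rfl | h3
      · exact hq₁G
      · rcases Finset.mem_insert.mp h3 with rfl | h4
        · exact hq₂G
        · exact (hEmem q h4).2.2.2) (by
      rw [Finset.card_insert_of_notMem hE1, Finset.card_insert_of_notMem hE2, hEc]; omega)
      q₁ hq₁G (by
      intro q hq
      rcases Finset.mem_insert.mp hq with h3 | h3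
      · exact h3.ge
      · rcases Finset.mem_insert.mp h3 with h4 | h4
        · rw [h4]; exact hq₁le _ hq₂G
        · exact hq₁le q (hEmem q h4).2.2.2)
  rw [ls_insert hEP, hLP] at T1
  rw [ls_insert hE1, ls_insert hE2] at T2
  have hq₂LP := hlogle q₂ (hG hq₂G)
  have S3q : LP - 4 * w' ≤ Real.log q₁ := by linarith
  have S3 : ∀ q ∈ G, LP - 4 * w' ≤ Real.log q := by
    intro q hq
    have h3 := hq₁le q hq
    have h4 := h2 q₁ (hG hq₁G)
    have h5 : Real.log q₁ ≤ Real.log q :=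
      Real.log_le_log (by exact_mod_cast (by omega : 0 < q₁)) (by exact_mod_cast h3)
    linarith
  -- S4
  obtain ⟨F, hF, hFc⟩ := Finset.exists_subset_card_eq (show i ≤ #G by omega)
  obtain ⟨F', hF', hFc'⟩ := Finset.exists_subset_card_eq (show i + 1 ≤ #G by omega)
  have T3 := S1 F hF hFc q₁ hq₁G (fun q hq => hq₁le q (hF hq))
  have T4 := S2 F' hF' hFc' q₁ hq₁G (fun q hq => hq₁le q (hF' hq))
  have T5 : #F * (LP - 4 * w') ≤ ls F := card_le_ls (fun q hq => S3 q (hF hq))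
  have T5' : ls F ≤ #F * LP := ls_le_card (fun q hq => hlogle q (hG (hF hq)))
  have T6 : ls F' ≤ #F' * LP := ls_le_card (fun q hq => hlogle q (hG (hF' hq)))
  rw [hFc] at T5 T5'
  rw [hFc'] at T6
  push_cast at T6
  have S4a : (2 * i + 1) * LP - (8 * i + 6) * w' ≤ X := by nlinarith
  have S4b : X ≤ (2 * i + 1) * LP + 6 * w' := by nlinarith
  refine ⟨S3, ?_, ?_, ?_, ?_⟩
  · intro q hq hqG
    obtain ⟨h3, h4⟩ := H3 q hq hqG
    have hqF : q ∉ F := fun h => hqG (hF h)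
    have h5 := hNS q hq (insert q F) (by
      intro r hr
      rcases Finset.mem_insert.mp hr with rfl | h6
      · exact hq
      · exact hG (hF h6)) (by
      intro r hr
      rcases Finset.mem_insert.mp hr with h6 | h6
      · exact h6.ge
      · exact h4 r (hF h6))
    rw [ls_insert hqF] at h5
    rcases le_abs.mp h5 with h6 | h6
    · exfalso
      nlinarith
    · nlinarith
  · rw [abs_le]
    constructor
    · linarith
    · nlinarith
  · by_contra hcon
    rw [not_le] at hcon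
    have h3 : #G * (LP - 4 * w') ≤ ls G := card_le_ls S3
    have h4 := ls_mono hG
    have h5 : (2 * (i : ℝ) + 2) ≤ #G := by exact_mod_cast (by omega : 2 * i + 2 ≤ #G)
    have h6 : 0 ≤ LP - 4 * w' := by nlinarith
    have h7 := mul_le_mul_of_nonneg_right h5 h6
    nlinarith
  · intro hcG
    have h3 : #G * (LP - 4 * w') ≤ ls G := card_le_ls S3
    rw [hcG] at h3
    push_cast at h3
    nlinarith

end Pool.Agent.Helper58.PS
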