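import Mathlib
import Pool.Agent.Helper58.PS.Defs
import Pool.Agent.Helper78.ST.Pre
import Pool.Agent.Helper6.PS.Core

/-!
# Project PS2, PS-5a: the cluster structure of the numbers satisfying NS
-/

namespace Pool.Agent.Helper58.PS

open Finset Pool.Agent.Helper6.Lehmer Pool.Agent.Helper6.LehmerCount Pool.Agent.Helper58.LT
open Pool.Agent.Helper6.PW Pool.Agent.Helper78.ST

/-- the complement form of NS -/
theorem ns_compl {n k l w : ℕ} (h : Idx n k) (hn : n ≤ 2 ^ l) (hn2 : 2 ^ (l - 1) < n) (hl : 1 ≤ l)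
    (hNS : ¬ NSfail n l w) {p : ℕ} (hp : p ∈ n.primeFactors) {J : Finset ℕ}
    (hJ : J ⊆ n.primeFactors) (hpJ : ∀ q ∈ J, p ≤ q) :
    Real.log p / 2 - (w + 1) ≤ |ls J - (l : ℝ) * Real.log 2 / 2| := by
  have hn1 := h.lehmer.one_lt
  have hnR : (0 : ℝ) < n := by exact_mod_cast (by omega : 0 < n)
  have hsq := h.lehmer.squarefree
  have hlog2 := Real.log_two_lt_d9
  have hlogn : Real.log n ≤ l * Real.log 2 := by
    have h1 : (n : ℝ) ≤ 2 ^ l := by exact_mod_cast hn
    have h2 := Real.log_le_log hnR h1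
    rwa [Real.log_pow] at h2
  have hlogn' : (l : ℝ) * Real.log 2 - 1 ≤ Real.log n := by
    have h1 : (2 : ℝ) ^ (l - 1) ≤ n := by exact_mod_cast hn2.le
    have h2 := Real.log_le_log (by positivity) h1
    rw [Real.log_pow, Nat.cast_sub hl, Nat.cast_one] at h2
    linarith
  set I : Finset ℕ := (n.primeFactors.filter (fun q => ¬ q < p)) \ J with hI
  have hJsub : J ⊆ n.primeFactors.filter (fun q => ¬ q < p) := by
    intro q hq
    rw [mem_filter]
    exact ⟨hJ hq, by have := hpJ q hq; omega⟩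
  have hIsub : I ⊆ n.primeFactors := Finset.sdiff_subset.trans (filter_subset _ _)
  have hdvd : ∏ q ∈ I, q ∣ lg p n := by
    unfold lg
    exact Finset.prod_dvd_prod_of_subset _ _ _ Finset.sdiff_subset
  have key : Real.log (sm p n) + Real.log ((∏ q ∈ I, q : ℕ) : ℝ) = Real.log n - ls J := by
    rw [← ls_prod I (sub_pos hIsub)]
    have h5 : ls (n.primeFactors.filter (fun a => a < p)) = Real.log (sm p n) := by
      rw [ls_prod _ (sub_pos (filter_subset _ _))]
      rfl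
    have h6 : ls n.primeFactors = Real.log n := by
      rw [ls_prod _ (sub_pos (Finset.Subset.refl _)), Nat.prod_primeFactors_of_squarefree hsq]
    have h7 : ls I + ls J = ls (n.primeFactors.filter (fun q => ¬ q < p)) := by
      unfold ls
      exact Finset.sum_sdiff hJsub
    have h8 : ls (n.primeFactors.filter (fun a => a < p)) +
        ls (n.primeFactors.filter (fun a => ¬ a < p)) = ls n.primeFactors := by
      unfold ls
      exact Finset.sum_filter_add_sum_filter_not _ _ _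
    rw [← h5, ← h6]
    linarith
  by_contra hcon
  rw [not_le, abs_lt] at hcon
  apply hNS
  refine ⟨p, hp, ∏ q ∈ I, q, hdvd, ?_⟩
  rw [key, abs_lt]
  constructor <;> linarith [hcon.1, hcon.2]

/-- PS-5a: the cluster structure of the numbers satisfying NS -/
theorem clusterS (i : ℕ) (hi : 2 ≤ i) : ∃ K₀ : ℕ, 1 ≤ K₀ ∧ ∃ ε₂ : ℝ, 0 < ε₂ ∧ ε₂ < 1 ∧
    ∃ τ₀ : ℝ, 0 < τ₀ ∧ ∀ (l b w k n P : ℕ), 1 ≤ w → (w : ℝ) ≤ τ₀ * l → Idx n k → n ≤ 2 ^ l →
      2 ^ (l - 1) < n → n.primeFactors.card ≤ w → ¬ NSfail n l w → IsP n P → 2 ^ b < P →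
      P ≤ 2 ^ (b + 1) → |(l : ℝ) - (2 * i + 1) * b| ≤ ε₂ * b →
      i + 2 ≤ #(n.primeFactors.filter (fun q : ℕ => (2 : ℝ) ^ ((1 - ε₂) * b) ≤ (q : ℝ))) →
      ∃ G, Clus n l b w i K₀ P G := by
  have hiR : (2 : ℝ) ≤ i := by exact_mod_cast hi
  refine ⟨32 * i + 32, by omega, 1 / (8 * (i + 2)), by positivity, ?_,
    1 / (10000 * (i + 2) ^ 3), by positivity, ?_⟩
  · rw [div_lt_one (by positivity)]; linarith
  intro l b w k n P hw hwl h hn hn2 hcard hNS hIsP hP1 hP2 hlb hG
  set ε₂ : ℝ := 1 / (8 * (i + 2)) with hε₂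
  set τ₀ : ℝ := 1 / (10000 * (i + 2) ^ 3) with hτ₀
  have hwR : (1 : ℝ) ≤ w := by exact_mod_cast hw
  have hε₂0 : 0 < ε₂ := by positivity
  have hε₂e : ((i : ℝ) + 2) * ε₂ = 1 / 8 := by
    rw [hε₂]; field_simp
  have hτe : (10000 * ((i : ℝ) + 2) ^ 3) * w ≤ l := by
    rw [hτ₀, div_mul_eq_mul_div, one_mul, le_div_iff₀ (by positivity)] at hwl
    linarith
  have hlog2 := Real.log_two_lt_d9
  have hlog2' := Real.log_two_gt_d9
  have hbR : (0 : ℝ) ≤ b := by positivity
  -- l is large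
  have hl1 : 1 ≤ l := by
    by_contra hcon
    have : l = 0 := by omega
    subst this
    have h0 : 0 < 10000 * ((i : ℝ) + 2) ^ 3 * w := by positivity
    simp only [Nat.cast_zero] at hτe
    linarith
  have hε₂1 : ε₂ ≤ 1 / 32 := by nlinarith
  obtain ⟨hlb1, hlb2⟩ := abs_le.mp hlb
  have hlb3 : (l : ℝ) ≤ (2 * (i : ℝ) + 2) * b := by nlinarith
  -- b is large
  have hbig : 5000 * ((i : ℝ) + 2) ^ 2 * w ≤ b := by
    have h1 : 10000 * ((i : ℝ) + 2) ^ 3 * w ≤ (2 * (i : ℝ) + 2) * b := hτe.trans hlb3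
    have h2 : (2 * (i : ℝ) + 2) * b ≤ 2 * ((i : ℝ) + 2) * b := by nlinarith
    have h3 : (2 * ((i : ℝ) + 2)) * (5000 * ((i : ℝ) + 2) ^ 2 * w) ≤ (2 * ((i : ℝ) + 2)) * b := by
      calc (2 * ((i : ℝ) + 2)) * (5000 * ((i : ℝ) + 2) ^ 2 * w) = 10000 * ((i : ℝ) + 2) ^ 3 * w := by
            ring
        _ ≤ _ := h1.trans h2
    exact le_of_mul_le_mul_left h3 (by positivity)
  obtain ⟨hPmem, hPmax⟩ := hIsP
  have hPpos : (0 : ℝ) < P := by
    have : 0 < P := by
      have := Nat.one_le_two_pow (n := b)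
      omega
    exact_mod_cast this
  set LP := Real.log P with hLP
  have hLPb : (b : ℝ) * Real.log 2 ≤ LP := by
    have h1 : (2 : ℝ) ^ b ≤ P := by exact_mod_cast hP1.le
    have h2 := Real.log_le_log (by positivity) h1
    rwa [Real.log_pow] at h2
  have hLPb' : LP ≤ ((b : ℝ) + 1) * Real.log 2 := by
    have h1 : (P : ℝ) ≤ 2 ^ (b + 1) := by exact_mod_cast hP2
    have h2 := Real.log_le_log hPpos h1
    rw [Real.log_pow] at h2
    push_cast at h2
    exact h2
  have hLPbig : 2500 * ((i : ℝ) + 2) ^ 2 * w ≤ LP := by nlinarith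
  -- log of the threshold
  have hthr : ∀ q : ℕ, 0 < q → ((2 : ℝ) ^ ((1 - ε₂) * b) ≤ (q : ℝ) ↔
      (1 - ε₂) * (b * Real.log 2) ≤ Real.log q) := by
    intro q hq
    have hqR : (0 : ℝ) < q := by exact_mod_cast hq
    rw [← Real.log_le_log_iff (by positivity) hqR, Real.log_rpow (by norm_num)]
    ring_nf
  set G := n.primeFactors.filter (fun q : ℕ => (2 : ℝ) ^ ((1 - ε₂) * b) ≤ (q : ℝ)) with hGdef
  have hGsub : G ⊆ n.primeFactors := filter_subset _ _
  have hppos : ∀ q ∈ n.primeFactors, 0 < q := fun q hq => (Nat.prime_of_mem_primeFactors hq).pos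
  have hn1 := h.lehmer.one_lt
  have hsq := h.lehmer.squarefree
  have hnR : (0 : ℝ) < n := by exact_mod_cast (by omega : 0 < n)
  have hlsn : ls n.primeFactors = Real.log n := by
    rw [ls_prod _ (sub_pos (Finset.Subset.refl _)), Nat.prod_primeFactors_of_squarefree hsq]
  -- numerical consequences
  have hw2 : ((w : ℝ) + 1) ≤ 2 * w := by linarith
  have hi22 : (0 : ℝ) < ((i : ℝ) + 2) ^ 2 := by positivity
  have hεLP : 312 * ((i : ℝ) + 2) * w ≤ ε₂ * LP := by
    have h1 : ε₂ * (2500 * ((i : ℝ) + 2) ^ 2 * w) ≤ ε₂ * LP :=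
      mul_le_mul_of_nonneg_left hLPbig hε₂0.le
    have h2 : ε₂ * (2500 * ((i : ℝ) + 2) ^ 2 * w) = 2500 * (((i : ℝ) + 2) * ε₂) * ((i : ℝ) + 2) * w := by
      ring
    rw [h2, hε₂e] at h1
    have h3 : 0 ≤ ((i : ℝ) + 2) * w := by positivity
    nlinarith
  have hiw : 0 ≤ (i : ℝ) * w := by positivity
  have hiw1 : (i : ℝ) ≤ i * w := by nlinarith
  have hbL : (1 - ε₂) * (b * Real.log 2) ≤ (1 - ε₂) * LP :=
    mul_le_mul_of_nonneg_left hLPb (by linarith)
  have hbL' : (1 - 2 * ε₂) * LP ≤ (1 - ε₂) * (b * Real.log 2) := by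
    have h1 : (1 - ε₂) * (LP - Real.log 2) ≤ (1 - ε₂) * (b * Real.log 2) :=
      mul_le_mul_of_nonneg_left (by linarith) (by linarith)
    nlinarith
  have hGne : G.Nonempty := by
    rw [← Finset.card_pos]; omega
  have hPG : P ∈ G := by
    rw [hGdef, mem_filter]
    refine ⟨hPmem, ?_⟩
    rw [hthr P (hppos P hPmem)]
    have : 0 ≤ ε₂ * (b * Real.log 2) := by positivity
    nlinarith
  have hcore := core n.primeFactors i hi ((l : ℝ) * Real.log 2) LP (w + 1) (2 * ε₂) P G hPG rfl hGsub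
    (fun q hq => (Nat.prime_of_mem_primeFactors hq).two_le) hPmax
    (fun p hp J hJ hpJ => ns_compl h hn hn2 hl1 hNS hp hJ hpJ)
    (by
      rw [hlsn]
      have h1 : (n : ℝ) ≤ 2 ^ l := by exact_mod_cast hn
      have h2 := Real.log_le_log hnR h1
      rwa [Real.log_pow] at h2)
    (by positivity) (by positivity)
    (by
      have : ((i : ℝ) + 2) * (2 * ε₂) = 2 * (((i : ℝ) + 2) * ε₂) := by ring
      rw [this, hε₂e]; norm_num)
    (by
      have e1 : (l : ℝ) * Real.log 2 - (2 * i + 1) * LP =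
          ((l : ℝ) - (2 * i + 1) * b) * Real.log 2 - (2 * i + 1) * (LP - b * Real.log 2) := by ring
      rw [e1]
      have h1 : |((l : ℝ) - (2 * i + 1) * b) * Real.log 2| ≤ ε₂ * LP := by
        rw [abs_mul, abs_of_pos (show (0 : ℝ) < Real.log 2 by linarith)]
        calc |(l : ℝ) - (2 * i + 1) * b| * Real.log 2 ≤ ε₂ * b * Real.log 2 :=
              mul_le_mul_of_nonneg_right hlb (by linarith)
          _ = ε₂ * (b * Real.log 2) := by ring
          _ ≤ ε₂ * LP := mul_le_mul_of_nonneg_left hLPb hε₂0.le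
      have h2 : |(2 * (i : ℝ) + 1) * (LP - b * Real.log 2)| ≤ ε₂ * LP := by
        rw [abs_of_nonneg (mul_nonneg (by positivity) (by linarith))]
        have h3 : (2 * (i : ℝ) + 1) * (LP - b * Real.log 2) ≤ (2 * (i : ℝ) + 1) * 1 :=
          mul_le_mul_of_nonneg_left (by linarith) (by positivity)
        nlinarith
      calc _ ≤ |((l : ℝ) - (2 * i + 1) * b) * Real.log 2| +
            |(2 * (i : ℝ) + 1) * (LP - b * Real.log 2)| := abs_sub _ _
        _ ≤ 2 * ε₂ * LP := by linarith)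
    (by
      intro q hq
      rw [hGdef, mem_filter] at hq
      have h1 := (hthr q (hppos q hq.1)).mp hq.2
      linarith)
    (by
      intro q hq hqG
      have h1 : ¬ (2 : ℝ) ^ ((1 - ε₂) * b) ≤ (q : ℝ) := by
        intro hcon
        exact hqG (by rw [hGdef, mem_filter]; exact ⟨hq, hcon⟩)
      have h2 := h1
      rw [hthr q (hppos q hq), not_le] at h2
      refine ⟨by linarith, ?_⟩
      intro r hr
      rw [hGdef, mem_filter] at hr
      rw [not_le] at h1
      have h3 : (q : ℝ) < r := lt_of_lt_of_le h1 hr.2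
      exact_mod_cast h3.le)
    (by nlinarith) hG
  obtain ⟨C1, C2, C3, C4, C5⟩ := hcore
  have hcard2 : #G ≤ 2 * i := by
    by_contra hcon
    have hc : #G = 2 * i + 1 := by omega
    have h1 := C5 hc
    obtain ⟨q₁, hq₁, hq₁le⟩ : ∃ q₁ ∈ G, ∀ q ∈ G, q₁ ≤ q :=
      ⟨G.min' hGne, G.min'_mem hGne, fun q hq => G.min'_le q hq⟩
    have hq₁pf := hGsub hq₁
    have h2 := h.prime_le hq₁pf
    have h3 : q₁ ≤ 2 * w * sm q₁ n := h2.le.trans (Nat.mul_le_mul_right _ (by omega))
    have h4 : (q₁ : ℝ) ≤ 2 * w * sm q₁ n := by exact_mod_cast h3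
    have hqR : (0 : ℝ) < q₁ := by exact_mod_cast hppos q₁ hq₁pf
    have h5 := Real.log_le_log hqR h4
    have hs0 : (0 : ℝ) < sm q₁ n := by exact_mod_cast sm_pos q₁ n
    rw [Real.log_mul (by positivity) (by positivity)] at h5
    have h6 : ls (n.primeFactors.filter (fun a => a < q₁)) = Real.log (sm q₁ n) := by
      rw [ls_prod _ (sub_pos (filter_subset _ _))]
      rfl
    have h7 : ls (n.primeFactors.filter (fun a => a < q₁)) ≤ ls (n.primeFactors \ G) := by
      apply ls_mono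
      intro a ha
      rw [mem_filter] at ha
      rw [mem_sdiff]
      refine ⟨ha.1, fun haG => ?_⟩
      have := hq₁le a haG
      omega
    have h8 : ls (n.primeFactors \ G) + ls G = ls n.primeFactors := by
      unfold ls
      exact Finset.sum_sdiff hGsub
    have h9 : Real.log (2 * w) ≤ 2 * w := by
      have := Real.log_le_sub_one_of_pos (show (0 : ℝ) < 2 * w by positivity)
      linarith
    have h10 := C1 q₁ hq₁
    have h11 : (0 : ℝ) ≤ ((i : ℝ) + 2) ^ 2 * w - (i + 2) * w := by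
      have : ((i : ℝ) + 2) ^ 2 * w - (i + 2) * w = (i + 2) * (i + 1) * w := by ring
      rw [this]; positivity
    nlinarith
  refine ⟨G, hGsub, ?_, fun q hq => hPmax q (hGsub hq), ?_, hG, hcard2, ?_, hP1, hP2⟩
  · intro q hq
    have h1 := C1 q hq
    push_cast
    nlinarith
  · intro q hq hqG
    have h1 := C2 q hq hqG
    push_cast
    nlinarith
  · push_cast
    refine C3.trans ?_
    nlinarith

end Pool.Agent.Helper58.PS
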