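import Mathlib
import Pool.Agent.Helper58.PS.Defs
import Pool.Agent.Helper58.LT.NSCount
import Pool.Agent.Helper6.PW.Blk
import Pool.Agent.Helper6.PW.Omega

/-!
# PS-6: small lemmas for one dyadic block (project PS2)

`crit_of`: if all primes outside the cluster are below `2^(θ+1)` with `θ` small, then `n` is critical.
-/

namespace Pool.Agent.Helper6.PS

open Finset Pool.Agent.Helper6.Lehmer Pool.Agent.Helper6.LehmerCount Pool.Agent.Helper58.LT
open Pool.Agent.Helper6.PW Pool.Agent.Helper58.PS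

theorem ev_pow (A : ℝ) (C : ℕ) (δ : ℝ) (hδ : 0 < δ) : ∃ l₀ : ℕ, ∀ l : ℕ, l₀ ≤ l →
    A * ((l : ℝ) + 1) ^ C ≤ (2 : ℝ) ^ (δ * l) := by
  have hr : (1 : ℝ) < (2 : ℝ) ^ δ := Real.one_lt_rpow (by norm_num) hδ
  have hr0 : (0 : ℝ) < (2 : ℝ) ^ δ := by positivity
  have h1 := tendsto_pow_const_div_const_pow_of_one_lt C hr
  have hpos : (0 : ℝ) < 1 / ((|A| + 1) * (2 : ℝ) ^ δ) := by positivity
  have h2 := (h1.eventually (gt_mem_nhds hpos)).exists_forall_of_atTop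
  obtain ⟨n₀, h3⟩ := h2
  refine ⟨n₀, fun l hl => ?_⟩
  have h4 := h3 (l + 1) (by omega)
  have h5 : (0 : ℝ) < ((2 : ℝ) ^ δ) ^ (l + 1) := by positivity
  rw [div_lt_div_iff₀ h5 (by positivity), one_mul] at h4
  have h6 : ((2 : ℝ) ^ δ) ^ (l + 1) = (2 : ℝ) ^ (δ * l) * (2 : ℝ) ^ δ := by
    rw [pow_succ, ← Real.rpow_natCast ((2 : ℝ) ^ δ) l, ← Real.rpow_mul (by norm_num)]
  rw [h6, ← mul_assoc] at h4
  have h7 := lt_of_mul_lt_mul_right h4 hr0.le
  push_cast at h7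
  have h8 : 0 ≤ ((l : ℝ) + 1) ^ C := by positivity
  have h9 : A ≤ |A| + 1 := (le_abs_self A).trans (by linarith)
  nlinarith

theorem exists_pos_le (f : ℕ → ℝ) (hf : ∀ j, 0 < f j) (J : ℕ) : ∃ m : ℝ, 0 < m ∧ ∀ j ≤ J, m ≤ f j := by
  induction J with
  | zero => exact ⟨f 0, hf 0, fun j hj => by rw [Nat.le_zero.1 hj]⟩
  | succ J ih =>
    obtain ⟨m, hm, h⟩ := ih
    refine ⟨min m (f (J + 1)), lt_min hm (hf _), fun j hj => ?_⟩
    rcases Nat.of_le_succ hj with h1 | h1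
    · exact (min_le_left _ _).trans (h j h1)
    · rw [h1]
      exact min_le_right _ _

theorem exists_ge (f : ℕ → ℕ) (J : ℕ) : ∃ M : ℕ, ∀ j ≤ J, f j ≤ M :=
  ⟨∑ j ∈ range (J + 1), f j, fun j hj =>
    Finset.single_le_sum (f := f) (fun _ _ => Nat.zero_le _) (mem_range.2 (by omega))⟩

/-- a small `θ` makes `n` critical -/
theorem crit_of {n l b i W θ : ℕ} {ε ea : ℝ} (hε : 0 < ε) (hε4 : ε ≤ 1 / 4) (hea : ea ≤ ε)
    (hi : |(l : ℝ) / b - (2 * i + 1)| < ea)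
    (hc : i + 2 ≤ #(n.primeFactors.filter (fun q : ℕ => (2 : ℝ) ^ ((1 - ea) * b) ≤ (q : ℝ))))
    (h1 : i + 2 ≤ #(clu n b W)) (h2 : #(clu n b W) < 2 * i)
    (hq : ∀ q ∈ n.primeFactors, q ∈ clu n b W ∨ q < 2 ^ (θ + 1))
    (h3 : 3 * (θ : ℝ) ≤ b + W) (hW : (W : ℝ) ≤ ε / 2 * b) (hb : 12 ≤ b)
    (hθ : (θ : ℝ) + 1 ≤ ε * l) : critB n l b ε := by
  have hb0 : (12 : ℝ) ≤ b := by exact_mod_cast hb
  have hclu : ∀ q ∈ clu n b W, (2 : ℝ) ^ ((1 - ε) * b) ≤ (q : ℝ) := by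
    intro q hq
    rw [clu, mem_filter] at hq
    refine le_trans ?_ hq.2
    have hl2 : (0.69 : ℝ) < Real.log 2 := by
      have := Real.log_two_gt_d9
      linarith
    have e1 : (2 : ℝ) ^ b * Real.exp (-(W : ℝ)) = Real.exp (b * Real.log 2 - W) := by
      rw [sub_eq_add_neg, Real.exp_add, mul_comm (b : ℝ), Real.exp_mul, Real.exp_log (by norm_num),
        Real.rpow_natCast]
    have e2 : (2 : ℝ) ^ ((1 - ε) * b) = Real.exp ((1 - ε) * b * Real.log 2) := by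
      rw [Real.rpow_def_of_pos (by norm_num)]
      congr 1
      ring
    rw [e1, e2]
    apply Real.exp_le_exp.2
    have h5 : ε / 2 * b ≤ ε * b * Real.log 2 := by
      have : 0 ≤ ε * b := by positivity
      nlinarith
    nlinarith
  have hsm : ∀ q : ℕ, q < 2 ^ (θ + 1) → (q : ℝ) < (2 : ℝ) ^ ((1 - ε) * b) := by
    intro q hq
    have h5 : (q : ℝ) < (2 : ℝ) ^ ((θ + 1 : ℕ) : ℝ) := by
      rw [Real.rpow_natCast]
      exact_mod_cast hq
    refine h5.trans_le (Real.rpow_le_rpow_of_exponent_le (by norm_num) ?_)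
    push_cast
    have h6 : ε * b ≤ 1 / 4 * b := mul_le_mul_of_nonneg_right hε4 (by linarith)
    nlinarith
  refine ⟨i, by omega, hi.trans_le hea, hc.trans (card_le_card ?_), ?_, ?_⟩
  · intro q hq
    rw [mem_filter] at hq ⊢
    refine ⟨hq.1, le_trans (Real.rpow_le_rpow_of_exponent_le (by norm_num) ?_) hq.2⟩
    nlinarith
  · refine lt_of_le_of_lt (card_le_card ?_) h2
    intro q hq'
    rw [mem_filter] at hq'
    rcases hq q hq'.1 with h5 | h5
    · exact h5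
    · exact absurd hq'.2 (not_le.2 (hsm q h5))
  · intro q hq'
    rcases hq q hq' with h5 | h5
    · exact Or.inl (hclu q h5)
    · right
      have h6 : (q : ℝ) < (2 : ℝ) ^ ((θ + 1 : ℕ) : ℝ) := by
        rw [Real.rpow_natCast]
        exact_mod_cast h5
      refine h6.trans_le (Real.rpow_le_rpow_of_exponent_le (by norm_num) ?_)
      push_cast
      exact hθ

end Pool.Agent.Helper6.PS
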